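import Mathlib
import Pool.Agent.D0H61.CC.Stm

/-!
# Two primes, one real parameter, powers of primes as arguments: statements

`CP`: for almost every `α > 0` there are infinitely many primes `q` such that `⌊γ₁ α ^ κ₁ q ^ h⌋ + a` and
`⌊γ₂ α ^ κ₂ q ^ h⌋ + b` are primes. Every statement is a small variant of a statement of `CC` (file
`Pool.Agent.D0H61.CC.Stm`); only CNT2 has a new idea (the frequencies of the sum over `q` are controlled in sup norm,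
those of the two sums over primes `p`, `r` in mean square).
-/

set_option autoImplicit false

namespace Pool.Agent.D0H61.CP

open Filter Topology MeasureTheory Finset Pool.Agent.D0H61.CC

/-- the primes `q` with `M < q` and `q ≤ (1 + η) ^ (1 / h) M` -/
noncomputable def pw (h : ℕ) (η : ℝ) (M : ℕ) : Finset ℕ := prs M ((1 + η) ^ (1 / h : ℝ) * M)

/-- their `h`-th powers; `N = M ^ h` -/
def Fam (h : ℕ) (η : ℝ) (N : ℕ) (G : Finset ℕ) : Prop := ∃ M : ℕ, N = M ^ h ∧ G = (pw h η M).image (· ^ h)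

/-- **PW** (from ZP with `τ = 0`): elementary facts and the number of elements. -/
def S_PW : Prop := ∀ h : ℕ, 1 ≤ h → ∀ η : ℝ, 0 < η → η ≤ 1 →
  (∀ N G, Fam h η N G → ∀ n ∈ G, N < n ∧ (n : ℝ) ≤ (1 + η) * N) ∧
  (∀ M : ℕ, ((pw h η M).image (· ^ h)).card = (pw h η M).card) ∧
  (∀ᶠ M : ℕ in atTop, (M : ℝ) ≤ (pw h η M).card * Real.log M ^ 2) ∧
  (∀ᶠ N : ℕ in atTop, ∀ G, Fam h η N G → (N : ℝ) ^ (1 / (2 * h) : ℝ) ≤ G.card)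

/-- **CNT2** (from TRI, MS, ZP). Let `l = N / δ` and
`W = ∑ q p r, log q * log p * log r * tri (l (φ + κ log p + (1 - κ) h log q - log r)) = ∫ K e S P₁ P₂`,
`S (ξ) = ∑ q, log q * ex (2π l (1 - κ) h ξ log q)`, `q` in `pw h η M`, `p` in `prs y₁ y₂`, `r` in a long interval
`prs z₁ z₂`. (1) Replace `S` by the integral `I (ξ) = ∫ x, ex (2π l (1 - κ) h ξ log x)` over `(M, (1 + η) ^ (1 / h) M]`:
by ZP (at `N := M`, exponent `A = 5 h`) the difference is at most `M / log ^ K` for `|ξ| ≤ N ^ 4`, so the error is at most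
`M / log ^ K * ∫ K (‖P₁‖ ^ 2 + ‖P₂‖ ^ 2) ≤ M / log ^ K * C N log N` by MS. (2) Replace `P₁, P₂` by integrals as in CNT
(`err_gen` with `g = I`; `∫ K ‖I‖ ^ 2 ≤ C M ^ 2 / l` by `ii_sq`, `s = N / M`). (3) The main term is a triple integral
of `tri`, at least `c (x₂ - x₁) (y₂ - y₁) δ` (`M_lower` with `n` real), and
`log q * (number of the q) ≤ 2 (x₂ - x₁)` (ZP with `τ = 0`). (4) `S_upper` with weights `log q ≤ log (2 M)`. -/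
def S_CNT2 : Prop := ∀ h : ℕ, 1 ≤ h → ∀ κ : ℝ, κ ≠ 0 → κ ≠ 1 → ∀ R : ℝ, 1 ≤ R → ∃ c : ℝ, 0 < c ∧
  ∀ (δ η η' : ℝ), 0 < δ → δ ≤ 1 → 0 < η → η ≤ 1 → 0 < η' → ∀ᶠ N : ℕ in atTop, ∀ G : Finset ℕ, Fam h η N G →
  ∀ φ y₁ y₂ : ℝ, |φ| ≤ R → N / R ≤ y₁ → y₁ + η' * N ≤ y₂ → y₂ ≤ R * N →
    c * δ * (y₂ - y₁) * G.card / Real.log N ^ 2 ≤ (prsG κ φ δ y₁ y₂ N G).card

/-- **FM2**: the first moment (`S_FM` for the sets `Fam h η N G`). -/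
def S_FM2 : Prop := ∀ h : ℕ, 1 ≤ h → ∀ (κ γ : ℝ) (a b : ℤ) (R : ℝ), κ ≠ 0 → κ ≠ 1 → 0 < γ → 1 ≤ R →
  ∃ c : ℝ, 0 < c ∧ ∃ η₀ : ℝ, 0 < η₀ ∧ η₀ ≤ 1 ∧ ∀ (α₀ η : ℝ), 1 / R ≤ α₀ → α₀ ≤ R → 0 < η → η ≤ η₀ →
  ∀ᶠ N : ℕ in atTop, ∀ G : Finset ℕ, Fam h η N G →
    c * η * G.card / Real.log N ^ 2 ≤ ∫ α in Set.Icc α₀ (α₀ * (1 + 3 * η)), (Mc κ γ a b G α : ℝ)

/-- **GEO2**: the proof of `t_GEO : S_CNT → S_FM` with `Fam` instead of the two hypotheses on `G` (which follow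
from PW). -/
def S_GEO2 : Prop := S_PW → S_CNT2 → S_FM2

/-- **LO2** (from OSC): `S_LO` for sparse sets. Cauchy-Schwarz, expand the square, OSC; for `n` fixed the sum of
`|n - n'| ^ (-1/2)` over `n' ∈ G` is at most `4 √|G| + √|G|` (split at `|n - n'| = |G|`). -/
def S_LO2 : Prop := ∀ (κ R : ℝ), κ ≠ 0 → κ ≠ 1 → 1 ≤ R → ∃ C : ℝ, 0 < C ∧
  ∀ G : Finset ℕ, ∀ u v q : ℝ, 1 ≤ q → (1 / q ≤ |v| ∨ (v = 0 ∧ 1 / q ≤ |u|)) →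
    ∫ α in Set.Icc (1 / R) R, ‖∑ n ∈ G, ex (n * (u * α + v * α ^ κ))‖ ≤ C * q * (G.card : ℝ) ^ (3 / 4 : ℝ)

/-- **SV2** (from LO2 and HAT, the proof of `t_SV`): the upper bound sieve for sparse sets (level of distribution
`N ^ (c θ)`). -/
def S_SV2 : Prop := ∀ θ : ℝ, 0 < θ → ∀ (κ γ : ℝ) (a b : ℤ) (R : ℝ), κ ≠ 0 → κ ≠ 1 → 0 < γ → 1 ≤ R →
  ∃ C : ℝ, 0 < C ∧ ∃ c : ℝ, 0 < c ∧ c ≤ 1 ∧ ∀ᶠ N : ℕ in atTop, ∀ G : Finset ℕ, (∀ n ∈ G, N < n ∧ n ≤ 2 * N) →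
    (N : ℝ) ^ θ ≤ G.card → ∀ B : Set ℝ, MeasurableSet B → B ⊆ Set.Icc (1 / R) R →
      ∫ α in B, (Mc κ γ a b G α : ℝ) ≤
        C * G.card / Real.log N ^ 2 * (volume B).toReal + G.card * (N : ℝ) ^ (-c)

/-- **CORE2** (from PW, FM2 and SV2, the proof of `t_CORE`). -/
def S_CORE2 : Prop := ∀ h : ℕ, 1 ≤ h → ∀ (κ γ : ℝ) (a b : ℤ) (R : ℝ), κ ≠ 0 → κ ≠ 1 → 0 < γ → 1 ≤ R →
  ∃ c : ℝ, 0 < c ∧ ∃ η₀ : ℝ, 0 < η₀ ∧ η₀ ≤ 1 ∧ ∀ (α₀ η : ℝ), 1 / R ≤ α₀ → α₀ ≤ R → 0 < η → η ≤ η₀ →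
  ∀ᶠ N : ℕ in atTop, ∀ G : Finset ℕ, Fam h η N G →
    ENNReal.ofReal (c * η) ≤ volume {α : ℝ | α ∈ Set.Icc α₀ (α₀ * (1 + 3 * η)) ∧
      (G.card : ℝ) ≤ Mc κ γ a b G α * Real.log N ^ 3}

/-- **ONE2** (from PW, CORE2 and DEN, the proof of `t_ONE`). -/
def S_ONE2 : Prop := ∀ h : ℕ, 1 ≤ h → ∀ (κ γ : ℝ) (a b : ℤ), κ ≠ 0 → κ ≠ 1 → 0 < γ →
  ∀ᵐ α : ℝ, 0 < α → Big 6 {q : ℕ | q.Prime ∧ PP (⌊α * (q : ℝ) ^ h⌋ + a) ∧ PP (⌊γ * α ^ κ * (q : ℝ) ^ h⌋ + b)}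

/-- **GEN2** (from ONE2, the proof of `t_GEN`). -/
def S_GEN2 : Prop := ∀ h : ℕ, 1 ≤ h → ∀ (κ₁ κ₂ γ₁ γ₂ : ℝ) (a b : ℤ), κ₁ ≠ 0 → κ₂ ≠ 0 → κ₁ ≠ κ₂ →
  0 < γ₁ → 0 < γ₂ → ∀ᵐ α : ℝ, 0 < α →
    Big 6 {q : ℕ | q.Prime ∧ PP (⌊γ₁ * α ^ κ₁ * (q : ℝ) ^ h⌋ + a) ∧ PP (⌊γ₂ * α ^ κ₂ * (q : ℝ) ^ h⌋ + b)}

/-- used for `∀ᶠ M` → `∀ᶠ N` -/
theorem ev_pow {h : ℕ} (hh : 1 ≤ h) {P : ℕ → Prop} (hP : ∀ᶠ M : ℕ in atTop, P M) :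
    ∀ᶠ N : ℕ in atTop, ∀ M : ℕ, N = M ^ h → P M := by
  obtain ⟨M0, hM0⟩ := eventually_atTop.1 hP
  refine eventually_atTop.2 ⟨M0 ^ h, fun N hN M hM => hM0 M ?_⟩
  rw [hM] at hN
  exact (Nat.pow_le_pow_iff_left (by omega)).1 hN

end Pool.Agent.D0H61.CP
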