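import Pool.Agent.D0H61.CP.Core2
import Pool.Agent.D0H35.CP.Geo2
import Pool.Agent.D0H41.CP.Sv2
import Pool.Agent.D0H65.CP.Gen2
import Pool.Agent.D0H65.CP.One2
import Pool.Agent.D0H65.CP.Pw
import Pool.Agent.D0H9.CP.Lo2
import Pool.Agent.D0H9.CC.Osc
import Pool.Agent.D0H87.CC.Tri
import Pool.Agent.D0H87.CC.Ms
import Pool.Agent.D0H96.CC.Hat

/-! Everything except the count of the triples (`S_CNT2`). -/

set_option autoImplicit false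

namespace Pool.Agent.D0H61.CP

open Pool.Agent.D0H61.CC

theorem gen2_of_cnt2 (hz : S_ZP) (h : S_CNT2) : S_GEN2 :=
  have hpw : S_PW := Pool.Agent.D0H65.CP.t_PW hz
  Pool.Agent.D0H65.CP.t_GEN2 (Pool.Agent.D0H65.CP.t_ONE2 hpw
    (t_CORE2 hpw (Pool.Agent.D0H35.CP.t_GEO2 hpw h)
      (Pool.Agent.D0H41.CP.t_SV2 (Pool.Agent.D0H9.CP.t_LO2 Pool.Agent.D0H9.CC.t_OSC)
        (Pool.Agent.D0H96.CC.t_HAT Pool.Agent.D0H87.CC.t_TRI)))
    Pool.Agent.D0H87.CC.t_DEN)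

end Pool.Agent.D0H61.CP
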